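import Pool.Agent.Helper36.LX.Sheet

/-! Row VAR (MP_665203_co, project LX): first variation of a minimal network. -/

set_option autoImplicit false

open MeasureTheory Metric Set Filter Topology
open scoped ENNReal NNReal

namespace H11ST
namespace LX
open LG
namespace VAR88

variable {d n : ℕ} (p : Fin n → E d)

omit p in
theorem map_lv (g : E d → E d) (t : BT (Fin n) (E d)) : (t.map g).lv = t.lv := by
  induction t with
  | leaf i => rfl
  | node z l r hl hr =>
    show (l.map g).lv ∪ (r.map g).lv = l.lv ∪ r.lv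
    rw [hl, hr]

omit p in
theorem map_ok (g : E d → E d) (t : BT (Fin n) (E d)) (h : t.ok) : (t.map g).ok := by
  induction t with
  | leaf i => trivial
  | node z l r hl hr =>
    obtain ⟨h1, h2, h3⟩ := h
    refine ⟨hl h1, hr h2, ?_⟩
    rw [map_lv, map_lv]
    exact h3

theorem map_pos (g : E d → E d) (hg : ∀ i, g (p i) = p i) (t : BT (Fin n) (E d)) :
    (t.map g).pos p = g (t.pos p) := by
  cases t with
  | leaf i => exact (hg i).symm
  | node z l r => rfl

theorem map_esum (g : E d → E d) (hg : ∀ i, g (p i) = p i) (f : E d → E d → ℝ)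
    (t : BT (Fin n) (E d)) :
    (t.map g).esum p f = t.esum p (fun a b => f (g a) (g b)) := by
  induction t with
  | leaf i => rfl
  | node z l r hl hr =>
    show f (g z) ((l.map g).pos p) + (l.map g).esum p f +
      (f (g z) ((r.map g).pos p) + (r.map g).esum p f) =
      f (g z) (g (l.pos p)) + l.esum p (fun a b => f (g a) (g b)) +
      (f (g z) (g (r.pos p)) + r.esum p (fun a b => f (g a) (g b)))
    rw [map_pos p g hg, map_pos p g hg, hl, hr]

theorem map_tot (i0 : Fin n) (g : E d → E d) (hg : ∀ i, g (p i) = p i)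
    (f : E d → E d → ℝ) (t : BT (Fin n) (E d)) :
    tot p i0 f (t.map g) = tot p i0 (fun a b => f (g a) (g b)) t := by
  unfold tot
  rw [map_pos p g hg, map_esum p g hg]
  show f (p i0) (g (t.pos p)) + _ = f (g (p i0)) (g (t.pos p)) + _
  rw [hg]

theorem esum_mono (f f' : E d → E d → ℝ) (h : ∀ a b, f a b ≤ f' a b) (t : BT (Fin n) (E d)) :
    t.esum p f ≤ t.esum p f' := by
  induction t with
  | leaf i => exact le_refl _
  | node z l r hl hr =>
    show f z (l.pos p) + l.esum p f + (f z (r.pos p) + r.esum p f) ≤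
      f' z (l.pos p) + l.esum p f' + (f' z (r.pos p) + r.esum p f')
    exact add_le_add (add_le_add (h _ _) hl) (add_le_add (h _ _) hr)

theorem tot_mono (i0 : Fin n) (f f' : E d → E d → ℝ) (h : ∀ a b, f a b ≤ f' a b)
    (t : BT (Fin n) (E d)) : tot p i0 f t ≤ tot p i0 f' t :=
  add_le_add (h _ _) (esum_mono p f f' h t)

theorem esum_lin (f f' f'' : E d → E d → ℝ) (e : ℝ) (t : BT (Fin n) (E d)) :
    t.esum p (fun a b => f a b + e * f' a b + e ^ 2 * f'' a b) =
      t.esum p f + e * t.esum p f' + e ^ 2 * t.esum p f'' := by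
  induction t with
  | leaf i =>
    show (0 : ℝ) = 0 + e * 0 + e ^ 2 * 0
    ring
  | node z l r hl hr =>
    show (f z (l.pos p) + e * f' z (l.pos p) + e ^ 2 * f'' z (l.pos p)) +
        l.esum p (fun a b => f a b + e * f' a b + e ^ 2 * f'' a b) +
        ((f z (r.pos p) + e * f' z (r.pos p) + e ^ 2 * f'' z (r.pos p)) +
        r.esum p (fun a b => f a b + e * f' a b + e ^ 2 * f'' a b)) =
      (f z (l.pos p) + l.esum p f + (f z (r.pos p) + r.esum p f)) +
      e * (f' z (l.pos p) + l.esum p f' + (f' z (r.pos p) + r.esum p f')) +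
      e ^ 2 * (f'' z (l.pos p) + l.esum p f'' +
        (f'' z (r.pos p) + r.esum p f''))
    rw [hl, hr]
    ring

theorem tot_lin (i0 : Fin n) (f f' f'' : E d → E d → ℝ) (e : ℝ) (t : BT (Fin n) (E d)) :
    tot p i0 (fun a b => f a b + e * f' a b + e ^ 2 * f'' a b) t =
      tot p i0 f t + e * tot p i0 f' t + e ^ 2 * tot p i0 f'' t := by
  unfold tot
  rw [esum_lin p]
  ring

omit p in
theorem edge (u w : E d) (h : u = 0 → w = 0) (e : ℝ) :
    ‖u + e • w‖ ≤ ‖u‖ + e * (inner ℝ u w / ‖u‖) + e ^ 2 * (‖w‖ ^ 2 / (2 * ‖u‖)) := by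
  by_cases hu : u = 0
  · rw [h hu, hu]
    simp
  · have hn : 0 < ‖u‖ := norm_pos_iff.2 hu
    have h1 : ‖u + e • w‖ ^ 2 = ‖u‖ ^ 2 + 2 * (e * inner ℝ u w) + e ^ 2 * ‖w‖ ^ 2 := by
      rw [norm_add_sq_real, inner_smul_right, norm_smul, mul_pow, Real.norm_eq_abs, sq_abs]
    have h2 : ‖u‖ + e * (inner ℝ u w / ‖u‖) + e ^ 2 * (‖w‖ ^ 2 / (2 * ‖u‖)) =
        (‖u‖ ^ 2 + ‖u + e • w‖ ^ 2) / (2 * ‖u‖) := by
      rw [h1]
      field_simp
      ring
    rw [h2, le_div_iff₀ (by positivity)]
    nlinarith [sq_nonneg (‖u‖ - ‖u + e • w‖)]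

end VAR88

open VAR88

theorem var : LX_VAR := by
  intro d n p i0 t ht D hD
  have key : ∀ e : ℝ, 0 < e → 0 ≤ tot p i0 (fun a b => inner ℝ (a - b) (D a - D b) / ‖a - b‖) t +
      e * tot p i0 (fun a b => ‖D a - D b‖ ^ 2 / (2 * ‖a - b‖)) t := by
    intro e he
    set g : E d → E d := fun z => z + e • D z with hg
    have hgt : ∀ i, g (p i) = p i := by
      intro i
      simp [hg, hD i]
    have hval : Val i0 (t.map g) := ⟨map_ok g t ht.val.1, by rw [map_lv]; exact ht.val.2⟩
    have h1 := ht.le _ hval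
    rw [map_tot p i0 g hgt] at h1
    have h2 := tot_mono p i0 (fun a b => dist (g a) (g b))
      (fun a b => dist a b + e * (inner ℝ (a - b) (D a - D b) / ‖a - b‖) +
        e ^ 2 * (‖D a - D b‖ ^ 2 / (2 * ‖a - b‖))) (by
        intro a b
        have h3 := edge (a - b) (D a - D b) (by
          intro h
          rw [sub_eq_zero.1 h, sub_self]) e
        have h4 : g a - g b = (a - b) + e • (D a - D b) := by
          simp only [hg]
          module
        show dist (g a) (g b) ≤ _
        rw [dist_eq_norm, h4, dist_eq_norm]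
        exact h3) t
    rw [tot_lin p i0 dist (fun a b => inner ℝ (a - b) (D a - D b) / ‖a - b‖)
      (fun a b => ‖D a - D b‖ ^ 2 / (2 * ‖a - b‖)) e t] at h2
    have h5 : 0 ≤ e * (tot p i0 (fun a b => inner ℝ (a - b) (D a - D b) / ‖a - b‖) t +
      e * tot p i0 (fun a b => ‖D a - D b‖ ^ 2 / (2 * ‖a - b‖)) t) := by
      nlinarith [h1, h2]
    exact nonneg_of_mul_nonneg_right h5 he
  by_contra hneg
  rw [not_le] at hneg
  set X := tot p i0 (fun a b => inner ℝ (a - b) (D a - D b) / ‖a - b‖) t with hX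
  set Y := tot p i0 (fun a b => ‖D a - D b‖ ^ 2 / (2 * ‖a - b‖)) t with hY
  have h1 := key (-X / (2 * (|Y| + 1))) (by
    have : 0 < |Y| + 1 := by positivity
    apply div_pos <;> linarith)
  have hY1 : 0 < |Y| + 1 := by positivity
  have h2 : -X / (2 * (|Y| + 1)) * Y ≤ -X / 2 := by
    rw [div_mul_eq_mul_div, div_le_div_iff₀ (by positivity) (by norm_num)]
    have : Y ≤ |Y| := le_abs_self Y
    nlinarith
  linarith

end LX
end H11ST


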